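import Pool.Agent.helper84.NR.SpecW

set_option autoImplicit false

namespace Pool.Agent.helper84.NR

open scoped Classical
open Finset

/-- The two edges of `A` beside `x` (not containing `x`). -/
theorem RL2_e1 {V F : Type} (M : PMap V F) (x : V) (A : F) (hA : OnV M.toCyc A x) :
    OnE M.toCyc A s(ww M x A 1, ww M x A 2) ∧ x ∉ s(ww M x A 1, ww M x A 2) := by
  have h0 := (h_WW0 V F M x A hA).1
  obtain ⟨hinj, -, -, -, -⟩ := h_IDX V F M.toCyc A (st M x A)
  have h3 := M.three A
  refine ⟨⟨st M x A + 1, rfl⟩, ?_⟩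
  intro hx
  rcases Sym2.mem_iff.1 hx with h | h
  · have : (0 : ℕ) = 1 := hinj 0 1 (by omega) (by omega) (by
      have h0' : M.bd A (st M x A + 0) = x := h0
      rw [h0']; exact h)
    omega
  · have : (0 : ℕ) = 2 := hinj 0 2 (by omega) (by omega) (by
      have h0' : M.bd A (st M x A + 0) = x := h0
      rw [h0']; exact h)
    omega

theorem RL2_e2 {V F : Type} (M : PMap V F) (x : V) (A : F) (hA : OnV M.toCyc A x) :
    OnE M.toCyc A s(ww M x A (M.len A - 1 - 1), ww M x A (M.len A - 1)) ∧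
      x ∉ s(ww M x A (M.len A - 1 - 1), ww M x A (M.len A - 1)) := by
  have h0 := (h_WW0 V F M x A hA).1
  obtain ⟨hinj, -, -, -, -⟩ := h_IDX V F M.toCyc A (st M x A)
  have h3 := M.three A
  refine ⟨⟨st M x A + (M.len A - 1 - 1), ?_⟩, ?_⟩
  · have e1 : st M x A + (M.len A - 1 - 1) + 1 = st M x A + (M.len A - 1) := by omega
    rw [e1]
    rfl
  intro hx
  rcases Sym2.mem_iff.1 hx with h | h
  · have : (0 : ℕ) = M.len A - 1 - 1 := hinj 0 (M.len A - 1 - 1) (by omega) (by omega) (by
      have h0' : M.bd A (st M x A + 0) = x := h0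
      rw [h0']; exact h)
    omega
  · have : (0 : ℕ) = M.len A - 1 := hinj 0 (M.len A - 1) (by omega) (by omega) (by
      have h0' : M.bd A (st M x A + 0) = x := h0
      rw [h0']; exact h)
    omega

/-- A neighbour of `x` on `A` is one of the two. -/
theorem RL2_nb {V F : Type} (M : PMap V F) (x s : V) (A : F) (hA : OnV M.toCyc A x)
    (hs : OnV M.toCyc A s) (had : Adj M.toCyc x s) :
    s = ww M x A 1 ∨ s = ww M x A (M.len A - 1) := by
  have h0 := (h_WW0 V F M x A hA).1
  obtain ⟨hinj, hv, -, hadj, -⟩ := h_IDX V F M.toCyc A (st M x A)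
  obtain ⟨h1, h2⟩ := h_EDG V F M
  have hE := h2 A x s had hA hs
  have hne := (h1 A x s hE).2.2
  obtain ⟨a, ha, has⟩ := hv s hs
  have h0' : M.bd A (st M x A + 0) = x := h0
  have ha0 : a ≠ 0 := by
    intro h
    rw [h, h0'] at has
    exact hne has
  have hE' : OnE M.toCyc A s(M.bd A (st M x A + 0), M.bd A (st M x A + a)) := by
    rw [h0', has]; exact hE
  rcases hadj 0 a (by omega) ha hE' with h | ⟨_, h⟩
  · left
    rw [← has, h]
    rfl
  · right
    rw [← has, h]
    rfl

/-- An edge of `A` at a neighbour of `x` which does not contain `x`. -/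
theorem RL2_ex {V F : Type} (M : PMap V F) (x s : V) (A : F) (hA : OnV M.toCyc A x)
    (hs : OnV M.toCyc A s) (had : Adj M.toCyc x s) :
    ∃ e, s ∈ e ∧ x ∉ e ∧ OnE M.toCyc A e := by
  rcases RL2_nb M x s A hA hs had with h | h
  · refine ⟨s(ww M x A 1, ww M x A 2), ?_, (RL2_e1 M x A hA).2, (RL2_e1 M x A hA).1⟩
    rw [← h]; exact Sym2.mem_mk_left _ _
  · refine ⟨s(ww M x A (M.len A - 1 - 1), ww M x A (M.len A - 1)), ?_, (RL2_e2 M x A hA).2,
      (RL2_e2 M x A hA).1⟩
    rw [← h]; exact Sym2.mem_mk_right _ _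

/-- `RL` passes to the other face at `x` containing `s`. -/
theorem RL2_step {V F : Type} [Fintype V] [Fintype F] (hSTE : STE_stmt) (M : PMap V F) (x y : V)
    (J : Finset F) (hJ : TopW M x y J) (q : Quot (lk M (inU M x y J))) (hq : Pure M x y J q)
    (A' : F) (s : V) (e : Sym2 V) (hse : s ∈ e) (hcx : cx M x e) (hhas : Has M x y J q e)
    (had : Adj M.toCyc x s) (hun : ¬ ∃ B, OnV M.toCyc B y ∧ OnV M.toCyc B s)
    (hA' : OnV M.toCyc A' x) (hs' : OnV M.toCyc A' s) : RL M x y J q A' s := by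
  obtain ⟨e', h1, h2, h3⟩ := RL2_ex M x s A' hA' hs' had
  refine ⟨hA', had, hs', hun, e', h1, h2, h3, ?_⟩
  exact hSTE V F M x y J hJ q hq s hun e e' hse h1 hcx ⟨h2, A', hA', h3⟩ hhas

/-- A face at `x` which meets no face at `y`: if one edge of it has a face of the class, `RL` holds for
both neighbours. -/
theorem RL2_out {V F : Type} [Fintype V] [Fintype F] (hWLXW : WLXW_stmt) (M : PMap V F) (x y : V)
    (J : Finset F) (hJ : TopW M x y J) (q : Quot (lk M (inU M x y J))) (hq : Pure M x y J q)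
    (A : F) (hA : OnV M.toCyc A x) (hX : A ∉ XM M x y) (e : Sym2 V) (hxe : x ∉ e)
    (hAe : OnE M.toCyc A e) (hhas : Has M x y J q e) (s : V) (had : Adj M.toCyc x s)
    (hs : OnV M.toCyc A s) : RL M x y J q A s := by
  have hun : ∀ v, OnV M.toCyc A v → ¬ ∃ B, OnV M.toCyc B y ∧ OnV M.toCyc B v := by
    rintro v hv ⟨B, hB, hBv⟩
    apply hX
    unfold XM
    rw [Finset.mem_filter]
    exact ⟨Finset.mem_univ _, hA, B, hB, v, hv, hBv⟩
  have h0 := h_WW0 V F M x A hA
  obtain ⟨hinj, hv, hed, hadj, hper⟩ := h_IDX V F M.toCyc A (st M x A)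
  have h3 := M.three A
  obtain ⟨a, ha, hae⟩ := hed e hAe
  have h0' : M.bd A (st M x A + 0) = x := h0.1
  have hlen' : M.bd A (st M x A + M.len A) = x := h0.2
  have ha0 : a ≠ 0 := by
    intro h
    apply hxe
    rw [hae, h, h0']
    exact Sym2.mem_mk_left _ _
  have ha1 : a + 1 ≠ M.len A := by
    intro h
    apply hxe
    have e1 : st M x A + a + 1 = st M x A + M.len A := by omega
    rw [hae, e1, hlen']
    exact Sym2.mem_mk_right _ _
  have hhas' : Has M x y J q s(ww M x A a, ww M x A (a + 1)) := by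
    have : s(ww M x A a, ww M x A (a + 1)) = e := by
      rw [hae]; rfl
    rw [this]; exact hhas
  obtain ⟨i1, i2, h11, h12, h21, h22, hy1, hy2, hH1, hH2⟩ :=
    hWLXW V F M x y J hJ q hq A hA a (by omega) (by omega) hhas'
  have hon : ∀ i, OnV M.toCyc A (ww M x A i) := fun i => ⟨st M x A + i, rfl⟩
  have hi1 : i1 = 1 := by
    rcases hy1 with h | h
    · exact absurd h (hun _ (hon i1))
    · exact h
  have hi2 : i2 = M.len A - 1 := by
    rcases hy2 with h | h
    · exact absurd h (hun _ (hon i2))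
    · omega
  rw [hi1] at hH1
  rw [hi2] at hH2
  rcases RL2_nb M x s A hA hs had with h | h
  · refine ⟨hA, had, hs, hun s hs, s(ww M x A 1, ww M x A 2), ?_, (RL2_e1 M x A hA).2,
      (RL2_e1 M x A hA).1, hH1⟩
    rw [← h]; exact Sym2.mem_mk_left _ _
  · refine ⟨hA, had, hs, hun s hs, s(ww M x A (M.len A - 1 - 1), ww M x A (M.len A - 1)), ?_,
      (RL2_e2 M x A hA).2, (RL2_e2 M x A hA).1, hH2⟩
    rw [← h]; exact Sym2.mem_mk_right _ _

private lemma RL2_even {α β : Type} [Fintype α] [Fintype β] (P : α → β → Prop)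
    [DecidablePred fun p : α × β => P p.1 p.2] [∀ a, DecidablePred fun b => P a b]
    (h : ∀ a, (∃ b, P a b) → (univ.filter (fun b => P a b)).card = 2) :
    Even (univ.filter (fun p : α × β => P p.1 p.2)).card := by
  have h1 : (univ.filter (fun p : α × β => P p.1 p.2)).card =
      ∑ a : α, (univ.filter (fun b => P a b)).card := by
    rw [Finset.card_eq_sum_card_fiberwise (f := Prod.fst) (t := (univ : Finset α))
      (fun _ _ => Finset.mem_coe.2 (Finset.mem_univ _))]
    refine Finset.sum_congr rfl fun a _ => ?_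
    refine Finset.card_bij (fun p _ => p.2) ?_ ?_ ?_
    · intro p hp
      rw [Finset.mem_filter, Finset.mem_filter] at hp
      rw [Finset.mem_filter]
      refine ⟨Finset.mem_univ _, ?_⟩
      rw [← hp.2]; exact hp.1.2
    · intro p hp p' hp' hpp
      rw [Finset.mem_filter] at hp hp'
      exact Prod.ext (hp.2.trans hp'.2.symm) hpp
    · intro b hb
      rw [Finset.mem_filter] at hb
      refine ⟨(a, b), ?_, rfl⟩
      rw [Finset.mem_filter, Finset.mem_filter]
      exact ⟨⟨Finset.mem_univ _, hb.2⟩, rfl⟩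
  rw [h1]
  refine Finset.even_sum _ fun a _ => ?_
  by_cases ha : ∃ b, P a b
  · rw [h a ha]; exact even_two
  · have : univ.filter (fun b => P a b) = ∅ := by
      rw [Finset.filter_eq_empty_iff]
      intro b _ hb
      exact ha ⟨b, hb⟩
    rw [this]
    exact Even.zero

theorem RL2 (hSTE : STE_stmt) (hCLO : CLO_stmt) (hWLXW : WLXW_stmt) : RL2_stmt := by
  intro V F _ _ M x y J hJ q hq hSP
  obtain ⟨hD1, hD2, hD3, -, -⟩ := h_DEG V F M x
  -- the number of all pairs is even
  have hall : Even (univ.filter (fun p : V × F => RL M x y J q p.2 p.1)).card := by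
    refine RL2_even (fun s A => RL M x y J q A s) ?_
    rintro s ⟨A, hA⟩
    obtain ⟨hAx, had, hAs, hun, e, hse, hxe, hAe, hhas⟩ := hA
    rw [← hD2 s had]
    refine congrArg Finset.card ?_
    ext A'
    rw [Finset.mem_filter, Finset.mem_filter]
    constructor
    · rintro ⟨h1, h2⟩
      exact ⟨h1, h2.1, h2.2.2.1⟩
    · rintro ⟨h1, h2, h3⟩
      exact ⟨h1, RL2_step hSTE M x y J hJ q hq A' s e hse ⟨hxe, A, hAx, hAe⟩ hhas had hun h2 h3⟩
  have hout : Even (univ.filter (fun p : F × V => p.1 ∉ XM M x y ∧ RL M x y J q p.1 p.2)).card := by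
    refine RL2_even (fun A s => A ∉ XM M x y ∧ RL M x y J q A s) ?_
    rintro A ⟨s, hX, hRL⟩
    obtain ⟨hAx, had, hAs, hun, e, hse, hxe, hAe, hhas⟩ := hRL
    rw [← hD3 A hAx]
    refine congrArg Finset.card ?_
    ext s'
    rw [Finset.mem_filter, Finset.mem_filter]
    constructor
    · rintro ⟨h1, h2⟩
      exact ⟨h1, h2.2.2.1, h2.2.2.2.1⟩
    · rintro ⟨h1, h2, h3⟩
      exact ⟨h1, hX, RL2_out hWLXW M x y J hJ q hq A hAx hX e hxe hAe hhas s' h2 h3⟩
  have hswap : (univ.filter (fun p : V × F => RL M x y J q p.2 p.1)).card =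
      (univ.filter (fun p : F × V => RL M x y J q p.1 p.2)).card := by
    refine Finset.card_bij (fun p _ => (p.2, p.1)) ?_ ?_ ?_
    · intro p hp
      rw [Finset.mem_filter] at hp ⊢
      exact ⟨Finset.mem_univ _, hp.2⟩
    · intro p _ p' _ h
      have h1 := (Prod.ext_iff.1 h).1
      have h2 := (Prod.ext_iff.1 h).2
      exact Prod.ext h2 h1
    · intro p hp
      rw [Finset.mem_filter] at hp
      refine ⟨(p.2, p.1), ?_, rfl⟩
      rw [Finset.mem_filter]
      exact ⟨Finset.mem_univ _, hp.2⟩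
  have hsplit : (univ.filter (fun p : F × V => RL M x y J q p.1 p.2)).card =
      (univ.filter (fun p : F × V => p.1 ∈ XM M x y ∧ RL M x y J q p.1 p.2)).card +
      (univ.filter (fun p : F × V => p.1 ∉ XM M x y ∧ RL M x y J q p.1 p.2)).card := by
    rw [← Finset.card_filter_add_card_filter_not (s := univ.filter (fun p : F × V => RL M x y J q p.1 p.2))
      (fun p => p.1 ∈ XM M x y), Finset.filter_filter, Finset.filter_filter]
    refine congrArg₂ (· + ·) (congrArg Finset.card ?_) (congrArg Finset.card ?_)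
    · ext p
      rw [Finset.mem_filter, Finset.mem_filter]
      exact ⟨fun h => ⟨h.1, h.2.2, h.2.1⟩, fun h => ⟨h.1, h.2.2, h.2.1⟩⟩
    · ext p
      rw [Finset.mem_filter, Finset.mem_filter]
      exact ⟨fun h => ⟨h.1, h.2.2, h.2.1⟩, fun h => ⟨h.1, h.2.2, h.2.1⟩⟩
  have hin : Even (univ.filter (fun p : F × V => p.1 ∈ XM M x y ∧ RL M x y J q p.1 p.2)).card := by
    rw [hswap, hsplit] at hall
    exact (Nat.even_add.1 hall).2 hout
  have hne : (univ.filter (fun p : F × V => p.1 ∈ XM M x y ∧ RL M x y J q p.1 p.2)).card ≠ 0 := by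
    intro hzero
    have hempty : ∀ A s, RL M x y J q A s → A ∉ XM M x y := by
      intro A s hRL hX
      rw [Finset.card_eq_zero, Finset.filter_eq_empty_iff] at hzero
      exact hzero (Finset.mem_univ (A, s)) ⟨hX, hRL⟩
    refine hCLO V F M x y J hJ q hq
      {A | OnV M.toCyc A x ∧ A ∉ XM M x y ∧ ∃ e, OnE M.toCyc A e ∧ x ∉ e ∧ Has M x y J q e} ?_ ?_
    · obtain ⟨s, had, hun, e, hse, ⟨hxe, A, hAx, hAe⟩, hhas⟩ := hSP
      have hAs : OnV M.toCyc A s := by
        obtain ⟨k, hk⟩ := hAe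
        rw [hk] at hse
        rcases Sym2.mem_iff.1 hse with h | h
        · exact ⟨k, h.symm⟩
        · exact ⟨k + 1, h.symm⟩
      have hRL : RL M x y J q A s := ⟨hAx, had, hAs, hun, e, hse, hxe, hAe, hhas⟩
      exact ⟨A, e, ⟨hAx, hempty A s hRL, e, hAe, hxe, hhas⟩, hAx, hAe, hxe, hhas⟩
    · intro A e v hAT hAx hAe hxe hhas hve
      obtain ⟨-, hX, -⟩ := hAT
      have hAv : OnV M.toCyc A v := by
        obtain ⟨k, hk⟩ := hAe
        rw [hk] at hve
        rcases Sym2.mem_iff.1 hve with h | h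
        · exact ⟨k, h.symm⟩
        · exact ⟨k + 1, h.symm⟩
      have hun : ¬ ∃ B, OnV M.toCyc B y ∧ OnV M.toCyc B v := by
        rintro ⟨B, hB, hBv⟩
        apply hX
        unfold XM
        rw [Finset.mem_filter]
        exact ⟨Finset.mem_univ _, hAx, B, hB, v, hAv, hBv⟩
      refine ⟨hun, ?_⟩
      intro A' hA'x hA'v
      by_cases had : Adj M.toCyc x v
      · have hRL : RL M x y J q A' v :=
          RL2_step hSTE M x y J hJ q hq A' v e hve ⟨hxe, A, hAx, hAe⟩ hhas had hun hA'x hA'v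
        obtain ⟨-, -, -, -, e', hve', hxe', hAe', hhas'⟩ := hRL
        exact ⟨hA'x, hempty A' v (RL2_step hSTE M x y J hJ q hq A' v e hve ⟨hxe, A, hAx, hAe⟩ hhas had hun
          hA'x hA'v), e', hAe', hxe', hhas'⟩
      · have hvx : v ≠ x := by
          intro h
          rw [h] at hve
          exact hxe hve
        have hAA : A = A' := hD1 v A A' hvx had hAx hAv hA'x hA'v
        rw [← hAA]
        exact ⟨hAx, hX, e, hAe, hxe, hhas⟩
  obtain ⟨r, hr⟩ := hin
  omega

end Pool.Agent.helper84.NR
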